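import Pool.Agent.U36.SD.Stm

/-!
Project SD, package MV: over a finite extension `N` of the number field `K`, all Kummer characters of
the `ℓ`-th roots `ξ ℓ` (of elements of `N` which are not `ℓ`-th powers in `N`), `ℓ ∈ A`, occur for
elements of the Galois group which fix `N` and a root of unity `Z`.
-/

set_option autoImplicit false
set_option linter.unusedSectionVars false

open NumberField Polynomial Pool.Agent.W401.Cheb Pool.Agent.U36.DN

namespace Pool.Agent.U337.SD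

variable {K : Type} [Field K] [NumberField K]

/-- an element fixed by all the elements fixing `N` lies in `N` -/
lemma mem_of_fix (N : IntermediateField K (AlgebraicClosure K)) (y : AlgebraicClosure K)
    (h : ∀ σ : GK K, (∀ x ∈ N, σ x = x) → σ y = y) : y ∈ N := by
  have h1 : y ∈ IntermediateField.fixedField N.fixingSubgroup := by
    rw [IntermediateField.mem_fixedField_iff]
    intro σ hσ
    apply h
    intro x hx
    exact (IntermediateField.mem_fixingSubgroup_iff N σ).1 hσ x hx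
  rwa [InfiniteGalois.fixedField_fixingSubgroup] at h1

lemma deg_le (N : IntermediateField K (AlgebraicClosure K)) [FiniteDimensional K N]
    (z : AlgebraicClosure K) (hz : z ∈ N) :
    (minpoly K z).natDegree ≤ Module.finrank K N := by
  have h1 : minpoly K z = minpoly K (⟨z, hz⟩ : N) :=
    minpoly.algebraMap_eq (A := K) (B := N) (B' := AlgebraicClosure K)
      (algebraMap N (AlgebraicClosure K)).injective (⟨z, hz⟩ : N)
  rw [h1]
  exact minpoly.natDegree_le _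

lemma fix_mul {N : IntermediateField K (AlgebraicClosure K)} {σ τ : GK K}
    (h : ∀ x ∈ N, σ x = x) (h' : ∀ x ∈ N, τ x = x) : ∀ x ∈ N, (σ * τ) x = x := by
  intro x hx
  rw [AlgEquiv.mul_apply, h' x hx, h x hx]

lemma fix_inv {N : IntermediateField K (AlgebraicClosure K)} {σ : GK K}
    (h : ∀ x ∈ N, σ x = x) : ∀ x ∈ N, (σ⁻¹ : GK K) x = x := by
  intro x hx
  have h1 := congrArg (fun w => (σ⁻¹ : GK K) w) (h x hx)
  simp only [← AlgEquiv.mul_apply, inv_mul_cancel] at h1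
  exact h1.symm

lemma fix_pow {N : IntermediateField K (AlgebraicClosure K)} {σ : GK K}
    (h : ∀ x ∈ N, σ x = x) (m : ℕ) : ∀ x ∈ N, (σ ^ m) x = x := by
  induction m with
  | zero => intro x _; rfl
  | succ m ih => rw [pow_succ]; exact fix_mul ih h

/-- an element of an abelian extension generated by roots of unity -/
lemma exists_move (N : IntermediateField K (AlgebraicClosure K)) [FiniteDimensional K N]
    {ℓ n : ℕ} (hℓ : ℓ.Prime) (hℓn : ℓ ∣ n) (hn : 0 < n) {Z : AlgebraicClosure K}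
    (hZ : IsPrimitiveRoot Z n) (hd : Module.finrank ℚ K * Module.finrank K N + 1 < ℓ)
    {ρ : AlgebraicClosure K} (hρ : ρ ^ ℓ ∈ N) (hc : ∀ x ∈ N, x ^ ℓ ≠ ρ ^ ℓ) :
    ∃ σ : GK K, (∀ x ∈ N, σ x = x) ∧ σ Z = Z ∧ σ ρ ≠ ρ := by
  classical
  by_contra hcon
  push Not at hcon
  have hρ0 : ρ ≠ 0 := by
    intro h0
    apply hc 0 (zero_mem N)
    rw [h0]
  have hn0 : NeZero n := ⟨hn.ne'⟩
  have hℓ0 : NeZero ℓ := ⟨hℓ.ne_zero⟩
  -- commuting
  have hcomm : ∀ σ τ : GK K, (∀ x ∈ N, σ x = x) → (∀ x ∈ N, τ x = x) → σ (τ ρ) = τ (σ ρ) := by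
    intro σ τ hσN hτN
    have h1 : ((τ * σ)⁻¹ * (σ * τ)) Z = Z := by
      obtain ⟨i, -, hi⟩ := hZ.eq_pow_of_pow_eq_one (ξ := σ Z) (by rw [← map_pow, hZ.pow_eq_one, map_one])
      obtain ⟨j, -, hj⟩ := hZ.eq_pow_of_pow_eq_one (ξ := τ Z) (by rw [← map_pow, hZ.pow_eq_one, map_one])
      have h2 : (σ * τ) Z = (τ * σ) Z := by
        rw [AlgEquiv.mul_apply, AlgEquiv.mul_apply, ← hi, ← hj, map_pow, map_pow, ← hi, ← hj,
          ← pow_mul, ← pow_mul, mul_comm]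
      rw [AlgEquiv.mul_apply, h2, ← AlgEquiv.mul_apply, inv_mul_cancel]
      rfl
    have h2 := hcon _ (fix_mul (fix_inv (fix_mul hτN hσN)) (fix_mul hσN hτN)) h1
    have h3 := congrArg (τ * σ) h2
    rw [← AlgEquiv.mul_apply, mul_inv_cancel_left] at h3
    exact h3
  -- an element which moves the ℓ-th roots of unity
  set z : AlgebraicClosure K := Z ^ (n / ℓ) with hz
  have hzp : IsPrimitiveRoot z ℓ := hZ.pow hn (Nat.div_mul_cancel hℓn).symm
  obtain ⟨τ, hτN, hτ⟩ : ∃ τ : GK K, (∀ x ∈ N, τ x = x) ∧ τ z ≠ z := by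
    by_contra hall
    push Not at hall
    have hzN : z ∈ N := mem_of_fix N z hall
    have h2 := cyc_deg ℓ hℓ.pos z hzp
    rw [Nat.totient_prime hℓ] at h2
    have h3 := Nat.mul_le_mul_left (Module.finrank ℚ K) (deg_le N z hzN)
    omega
  obtain ⟨a, -, ha⟩ := hzp.eq_pow_of_pow_eq_one (ξ := τ z) (by rw [← map_pow, hzp.pow_eq_one, map_one])
  have hpow : ∀ u : AlgebraicClosure K, u ^ ℓ = 1 → τ u = u ^ a := by
    intro u hu
    obtain ⟨i, -, rfl⟩ := hzp.eq_pow_of_pow_eq_one hu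
    rw [map_pow, ← ha, ← pow_mul z, ← pow_mul z, mul_comm]
  -- the inverse of a - 1
  obtain ⟨e, k, he⟩ : ∃ e k : ℕ, a * e = e + 1 + ℓ * k ∨ e + 1 + ℓ * k = a * e ∨
      a * e + ℓ * k = e + 1 := by
    have h1 : IsCoprime ((a : ℤ) - 1) (ℓ : ℤ) := by
      rw [isCoprime_comm]
      refine (Nat.prime_iff_prime_int.1 hℓ).irreducible.coprime_iff_not_dvd.2 ?_
      intro hdvd
      apply hτ
      rw [← ha]
      obtain ⟨m, hm⟩ := hdvd
      have h2 : z ^ ((a : ℤ)) = z := by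
        have : (a : ℤ) = 1 + ℓ * m := by linarith
        have hz0 : z ≠ 0 := hzp.ne_zero hℓ.ne_zero
        rw [this, zpow_add₀ hz0, zpow_one, zpow_mul, zpow_natCast, hzp.pow_eq_one, one_zpow, mul_one]
      exact_mod_cast h2
    obtain ⟨x, y, hxy⟩ := h1
    -- choose e ≥ 0 congruent to x
    refine ⟨(x % ℓ).toNat, ?_⟩
    have hℓpos : (0 : ℤ) < ℓ := by exact_mod_cast hℓ.pos
    have hx0 := Int.emod_nonneg x hℓpos.ne'
    have hx1 : ((x % ℓ).toNat : ℤ) = x % ℓ := Int.toNat_of_nonneg hx0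
    have hx2 : x = ℓ * (x / ℓ) + x % ℓ := (Int.mul_ediv_add_emod x ℓ).symm
    obtain ⟨t, ht⟩ : ∃ t : ℤ, (a : ℤ) * (x % ℓ) = (x % ℓ) + 1 + ℓ * t := by
      refine ⟨-(y + (x / ℓ) * (a - 1)), ?_⟩
      have : (x % ℓ : ℤ) = x - ℓ * (x / ℓ) := by linarith
      rw [this]
      linear_combination hxy
    rcases le_or_gt 0 t with h0 | h0
    · refine ⟨t.toNat, Or.inl ?_⟩
      have h3 : ((t.toNat : ℕ) : ℤ) = t := Int.toNat_of_nonneg h0
      zify
      rw [hx1, h3]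
      exact ht
    · refine ⟨(-t).toNat, Or.inr (Or.inr ?_)⟩
      have h3 : (((-t).toNat : ℕ) : ℤ) = -t := Int.toNat_of_nonneg (by linarith)
      zify
      rw [hx1, h3]
      linarith
  have hpe : ∀ u : AlgebraicClosure K, u ^ ℓ = 1 → (u ^ a) ^ e = u ^ e * u := by
    intro u hu
    have hu' : ∀ k : ℕ, u ^ (ℓ * k) = 1 := fun k => by rw [pow_mul, hu, one_pow]
    rw [← pow_mul]
    rcases he with he | he | he
    · rw [he, pow_add, pow_add, hu', mul_one, pow_one]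
    · rw [← he, pow_add, pow_add, hu', mul_one, pow_one]
    · have : u ^ (a * e) = u ^ (a * e + ℓ * k) := by rw [pow_add, hu', mul_one]
      rw [this, he, pow_add, pow_one]
  -- the fixed root
  set u : GK K → AlgebraicClosure K := fun σ => σ ρ / ρ with hu
  have huρ : ∀ σ, σ ρ = u σ * ρ := fun σ => (div_mul_cancel₀ _ hρ0).symm
  have huℓ : ∀ σ : GK K, (∀ x ∈ N, σ x = x) → u σ ^ ℓ = 1 := by
    intro σ hσ
    rw [hu]
    simp only
    rw [div_pow, ← map_pow, hσ _ hρ, div_self]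
    exact pow_ne_zero _ hρ0
  have hfix : ∀ σ : GK K, (∀ x ∈ N, σ x = x) → σ (ρ / u τ ^ e) = ρ / u τ ^ e := by
    intro σ hσN
    have h1 := hcomm σ τ hσN hτN
    rw [huρ τ, huρ σ, map_mul, map_mul, huρ σ, huρ τ, hpow _ (huℓ σ hσN)] at h1
    have h2 : σ (u τ) * u σ = u σ ^ a * u τ := by
      apply mul_right_cancel₀ hρ0
      linear_combination h1
    have hu0 : u σ ≠ 0 := by
      intro h0
      have := huℓ σ hσN
      rw [h0, zero_pow hℓ.ne_zero] at this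
      exact zero_ne_one this
    have hu1 : u τ ≠ 0 := by
      intro h0
      have := huℓ τ hτN
      rw [h0, zero_pow hℓ.ne_zero] at this
      exact zero_ne_one this
    have h3 : σ (u τ ^ e) = u σ * u τ ^ e := by
      have h4 : (σ (u τ) * u σ) ^ e = (u σ ^ a * u τ) ^ e := by rw [h2]
      rw [mul_pow, mul_pow, hpe _ (huℓ σ hσN)] at h4
      have h5 : u σ ^ e ≠ 0 := pow_ne_zero _ hu0
      rw [map_pow]
      apply mul_right_cancel₀ h5
      rw [h4]
      ring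
    rw [map_div₀, h3, huρ σ, mul_div_mul_left _ _ hu0]
  have hy := mem_of_fix N _ hfix
  apply hc _ hy
  rw [div_pow, ← pow_mul, mul_comm e, pow_mul, huℓ τ hτN, one_pow, div_one]

/-- all Kummer characters occur -/
lemma all_chars (N : IntermediateField K (AlgebraicClosure K)) [FiniteDimensional K N]
    {A : Finset ℕ} (hA : ∀ ℓ ∈ A, ℓ.Prime)
    (hd : ∀ ℓ ∈ A, Module.finrank ℚ K * Module.finrank K N + 1 < ℓ)
    {n : ℕ} (hn : 0 < n) (hAn : ∀ ℓ ∈ A, ℓ ∣ n)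
    {Z : AlgebraicClosure K} (hZ : IsPrimitiveRoot Z n) {ρ : ℕ → AlgebraicClosure K}
    (hρ : ∀ ℓ ∈ A, ρ ℓ ^ ℓ ∈ N ∧ ∀ x ∈ N, x ^ ℓ ≠ ρ ℓ ^ ℓ) (k : ℕ → ℕ) :
    ∀ B : Finset ℕ, B ⊆ A → ∃ σ : GK K, (∀ x ∈ N, σ x = x) ∧ σ Z = Z ∧
      ∀ ℓ ∈ B, σ (ρ ℓ) = Z ^ ((n / ℓ) * k ℓ) * ρ ℓ := by
  classical
  intro B
  induction B using Finset.induction_on with
  | empty => exact fun _ => ⟨1, fun _ _ => rfl, rfl, fun ℓ h => absurd h (Finset.notMem_empty ℓ)⟩
  | insert q B hqB ih =>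
    intro hsub
    obtain ⟨τ, hτN, hτZ, hτ⟩ := ih fun x hx => hsub (Finset.mem_insert_of_mem hx)
    have hqA : q ∈ A := hsub (Finset.mem_insert_self q B)
    have hq := hA q hqA
    obtain ⟨σ, hσN, hσZ, hσ⟩ :=
      exists_move N hq (hAn q hqA) hn hZ (hd q hqA) (hρ q hqA).1 (hρ q hqA).2
    -- how elements fixing Z act
    have hroot : ∀ ℓ ∈ A, ρ ℓ ≠ 0 := by
      intro ℓ hℓ h0
      apply (hρ ℓ hℓ).2 0 (zero_mem N)
      rw [h0]
    have hact : ∀ ℓ ∈ A, ∀ g : GK K, (∀ x ∈ N, g x = x) →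
        ∃ i : ℕ, g (ρ ℓ) = Z ^ ((n / ℓ) * i) * ρ ℓ := by
      intro ℓ hℓ g hgN
      have hp := (hA ℓ hℓ)
      have hzp : IsPrimitiveRoot (Z ^ (n / ℓ)) ℓ := hZ.pow hn (Nat.div_mul_cancel (hAn ℓ hℓ)).symm
      have : NeZero ℓ := ⟨hp.ne_zero⟩
      obtain ⟨i, -, hi⟩ := hzp.eq_pow_of_pow_eq_one (ξ := g (ρ ℓ) / ρ ℓ) (by
        rw [div_pow, ← map_pow, hgN _ (hρ ℓ hℓ).1, div_self]
        exact pow_ne_zero _ (hroot ℓ hℓ))
      refine ⟨i, ?_⟩
      rw [pow_mul, hi, div_mul_cancel₀ _ (hroot ℓ hℓ)]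
    have hpow : ∀ g : GK K, g Z = Z → ∀ m : ℕ, (g ^ m) Z = Z := by
      intro g hg m
      induction m with
      | zero => rfl
      | succ m ih => rw [pow_succ, AlgEquiv.mul_apply, hg, ih]
    have hpowρ : ∀ ℓ ∈ A, ∀ g : GK K, g Z = Z → ∀ i : ℕ, g (ρ ℓ) = Z ^ ((n / ℓ) * i) * ρ ℓ →
        ∀ m : ℕ, (g ^ m) (ρ ℓ) = Z ^ ((n / ℓ) * (i * m)) * ρ ℓ := by
      intro ℓ hℓ g hg i hi m
      induction m with
      | zero => rw [pow_zero, mul_zero, mul_zero, pow_zero, one_mul]; rfl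
      | succ m ih =>
        rw [pow_succ', AlgEquiv.mul_apply, ih, map_mul, map_pow, hg, hi, ← mul_assoc, ← pow_add]
        congr 2
        ring
    obtain ⟨a, ha⟩ := hact q hqA σ hσN
    obtain ⟨b, hb⟩ := hact q hqA τ hτN
    have hqp : IsPrimitiveRoot (Z ^ (n / q)) q := hZ.pow hn (Nat.div_mul_cancel (hAn q hqA)).symm
    -- q does not divide a
    have haq : ¬ q ∣ a := by
      rintro ⟨m, rfl⟩
      apply hσ
      rw [ha, pow_mul, pow_mul, hqp.pow_eq_one, one_pow, one_mul]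
    set P := ∏ ℓ ∈ B, ℓ with hP
    have hPq : ¬ q ∣ P := by
      rw [hP, hq.prime.dvd_finsetProd_iff]
      rintro ⟨ℓ, hℓ, hdv⟩
      have := (Nat.prime_dvd_prime_iff_eq hq (hA ℓ (hsub (Finset.mem_insert_of_mem hℓ)))).1 hdv
      exact hqB (this ▸ hℓ)
    -- solve b + a P j = k q mod q
    obtain ⟨j, hj⟩ : ∃ j : ℕ, b + a * (P * j) ≡ k q [MOD q] := by
      have hcop : Nat.Coprime (a * P) q := by
        rw [Nat.coprime_comm, hq.coprime_iff_not_dvd, hq.dvd_mul]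
        tauto
      have hFact : Fact q.Prime := ⟨hq⟩
      have hu : ((a * P : ℕ) : ZMod q) ≠ 0 := by
        intro h0
        rw [ZMod.natCast_eq_zero_iff] at h0
        exact (hq.coprime_iff_not_dvd.1 hcop.symm) h0
      refine ⟨((((k q : ZMod q) - b) / ((a * P : ℕ) : ZMod q))).val, ?_⟩
      rw [← ZMod.natCast_eq_natCast_iff]
      push_cast
      rw [ZMod.natCast_zmod_val]
      push_cast at hu
      rw [← mul_assoc, mul_div_cancel₀ _ hu]
      ring
    refine ⟨τ * σ ^ (P * j), fix_mul hτN (fix_pow hσN _), ?_, ?_⟩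
    · rw [AlgEquiv.mul_apply, hpow σ hσZ, hτZ]
    · intro ℓ hℓ
      rcases Finset.mem_insert.1 hℓ with rfl | hℓB
      · rw [AlgEquiv.mul_apply, hpowρ ℓ hqA σ hσZ a ha, map_mul, map_pow, hτZ, hb, ← mul_assoc, ← pow_add,
          ← mul_add, pow_mul, pow_mul]
        congr 1
        rw [pow_eq_pow_mod _ hqp.pow_eq_one, pow_eq_pow_mod (k ℓ) hqp.pow_eq_one, add_comm, hj]
      · have hℓA := hsub (Finset.mem_insert_of_mem hℓB)
        obtain ⟨i, hi⟩ := hact ℓ hℓA σ hσN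
        obtain ⟨m, hm⟩ : ℓ ∣ P := Finset.dvd_prod_of_mem _ hℓB
        rw [AlgEquiv.mul_apply, hpowρ ℓ hℓA σ hσZ i hi, map_mul, map_pow, hτZ, hτ ℓ hℓB]
        have hzp : IsPrimitiveRoot (Z ^ (n / ℓ)) ℓ :=
          hZ.pow hn (Nat.div_mul_cancel (hAn ℓ hℓA)).symm
        have e : Z ^ ((n / ℓ) * (i * (P * j))) = 1 := by
          rw [pow_mul, hm, show i * (ℓ * m * j) = ℓ * (i * m * j) by ring, pow_mul, hzp.pow_eq_one,
            one_pow]
        rw [e, one_mul]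

/-- package MV -/
theorem t_MV : Pool.Agent.U36.SD.S_MV := by
  intro K _ _ N _ A hA hd n hn hAn Z hZ ξ hξ k
  exact all_chars N hA hd hn hAn hZ hξ k A (Finset.Subset.refl A)

end Pool.Agent.U337.SD
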